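import Pool.Agent.helper34.AC.Spec4

/-!
# Project ac, part OMS: a global majorant
-/

set_option autoImplicit false

open Filter Topology

namespace Pool.Agent.helper34.AC

theorem OMS_bell_pos (n : ℕ) : 0 < Nat.bell n := by
  induction n using Nat.strong_induction_on with
  | _ n ih =>
    rcases n with _ | n
    · simp [Nat.bell_zero]
    · rw [Nat.bell_succ']
      apply Finset.sum_pos'
      · intro i _
        exact Nat.zero_le _
      · refine ⟨(0, n), by simp [Finset.mem_antidiagonal], ?_⟩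
        simpa using ih n (Nat.lt_succ_self n)

theorem OMS_gb_pos (n : ℕ) : 0 < gb n := by
  unfold gb bl
  have h1 : (0 : ℝ) < (Nat.bell (n + 1) : ℝ) := by exact_mod_cast OMS_bell_pos (n + 1)
  have h2 : (0 : ℝ) < (Nat.bell n : ℝ) := by exact_mod_cast OMS_bell_pos n
  exact div_pos h1 h2

theorem OMS (hT : T2S_stmt) (hM : MAIN_stmt) (hW : WEX_stmt) (hO : OMF_stmt) (hP : POS_stmt) :
    OMS_stmt := by
  obtain ⟨n0, hn0⟩ := hT
  obtain ⟨w1, w2, w3, w4, w5⟩ := hW
  obtain ⟨o1, o2, o3, o4, o5, o6⟩ := hO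
  set c : ℝ := W (n0 : ℝ) with hc
  have hc0 : 0 ≤ c := (w1 n0 (Nat.cast_nonneg n0)).1
  refine ⟨fun j => max c (om j), ?_, ?_, ?_, ?_⟩
  · intro a b hab
    exact max_le_max le_rfl (o2 a b hab)
  · intro j
    exact le_trans hc0 (le_max_left _ _)
  · obtain ⟨M, hMM⟩ := eventually_atTop.mp (o5.eventually_ge_atTop c)
    exact ⟨M, fun j hj => max_eq_right (hMM j hj)⟩
  · intro V _ G U
    obtain ⟨p1, p2, p3, p4, p5⟩ := hP V G U
    have hN : 0 ≤ N G U := by linarith
    have hN1 : 0 ≤ N1 G U := by linarith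
    rcases Nat.lt_or_ge U.card n0 with h | h
    · have h1 : (U.card : ℝ) * N G U ≤ W (U.card : ℝ) * N1 G U := by
        have h2 := (w1 (U.card : ℝ) (Nat.cast_nonneg _))
        have h3 := hM V G U
        have h4 : (U.card : ℝ) = W (U.card : ℝ) * psi (U.card : ℝ) := h2.2.symm
        calc (U.card : ℝ) * N G U = W (U.card : ℝ) * psi (U.card : ℝ) * N G U := by rw [← h4]
          _ = W (U.card : ℝ) * (psi (U.card : ℝ) * N G U) := by ring
          _ ≤ W (U.card : ℝ) * N1 G U := mul_le_mul_of_nonneg_left h3 h2.1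
      have h5 : W (U.card : ℝ) ≤ c := w3 _ _ (Nat.cast_nonneg _) (by exact_mod_cast h.le)
      exact h1.trans (mul_le_mul_of_nonneg_right (h5.trans (le_max_left _ _)) hN1)
    · have h3 := hn0 V G U h
      have hg := OMS_gb_pos U.card
      have h4 : (U.card : ℝ) = om U.card * gb U.card := by
        unfold om
        field_simp
      have ho : 0 ≤ om U.card := (o1 U.card).1
      calc (U.card : ℝ) * N G U = om U.card * gb U.card * N G U := by rw [← h4]
        _ = om U.card * (gb U.card * N G U) := by ring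
        _ ≤ om U.card * N1 G U := mul_le_mul_of_nonneg_left h3 ho
        _ ≤ max c (om U.card) * N1 G U := mul_le_mul_of_nonneg_right (le_max_right _ _) hN1

end Pool.Agent.helper34.AC
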